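import Mathlib

set_option autoImplicit false

namespace Pool.Agent.Helper47.COD

/-- The center of distances of a set `A` of reals: all `α ≥ 0` such that every point of `A` has a
point of `A` at distance exactly `α`. -/
def centerOfDistances (A : Set ℝ) : Set ℝ := {α | 0 ≤ α ∧ ∀ x ∈ A, ∃ y ∈ A, |x - y| = α}

lemma exists_iff (A : Set ℝ) (α : ℝ) (hα : 0 ≤ α) (x : ℝ) :
    (∃ y ∈ A, |x - y| = α) ↔ (x + α ∈ A ∨ x - α ∈ A) := by
  constructor
  · rintro ⟨y, hy, hxy⟩
    rcases le_total x y with hle | hle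
    · left
      rw [abs_of_nonpos (by linarith)] at hxy
      have : x + α = y := by linarith
      rwa [this]
    · right
      rw [abs_of_nonneg (by linarith)] at hxy
      have : x - α = y := by linarith
      rwa [this]
  · rintro (h | h)
    · exact ⟨_, h, by rw [show x - (x + α) = -α by ring, abs_neg, abs_of_nonneg hα]⟩
    · exact ⟨_, h, by rw [show x - (x - α) = α by ring, abs_of_nonneg hα]⟩

lemma mem_iff (A : Set ℝ) (α : ℝ) :
    α ∈ centerOfDistances A ↔ 0 ≤ α ∧ ∀ x ∈ A, (x + α ∈ A ∨ x - α ∈ A) := by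
  constructor
  · rintro ⟨h0, h⟩
    exact ⟨h0, fun x hx => (exists_iff A α h0 x).1 (h x hx)⟩
  · rintro ⟨h0, h⟩
    exact ⟨h0, fun x hx => (exists_iff A α h0 x).2 (h x hx)⟩

/-- The intersection of two centers of distances of nonempty compact sets is again one. -/
lemma inter (K₁ K₂ : Set ℝ) (h₁ : IsCompact K₁) (h₂ : IsCompact K₂) (n₁ : K₁.Nonempty)
    (n₂ : K₂.Nonempty) : ∃ K : Set ℝ, IsCompact K ∧ K.Nonempty ∧
      centerOfDistances K = centerOfDistances K₁ ∩ centerOfDistances K₂ := by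
  obtain ⟨R₁, hR₁⟩ := h₁.isBounded.exists_norm_le
  obtain ⟨R₂, hR₂⟩ := h₂.isBounded.exists_norm_le
  obtain ⟨R, hR0, hRa, hRb⟩ : ∃ R : ℝ, 0 < R ∧ R₁ ≤ R ∧ R₂ ≤ R :=
    ⟨max 1 (max R₁ R₂), lt_of_lt_of_le one_pos (le_max_left _ _),
      (le_max_left _ _).trans (le_max_right _ _), (le_max_right _ _).trans (le_max_right _ _)⟩
  have b₁ : ∀ x ∈ K₁, -R ≤ x ∧ x ≤ R := fun x hx => abs_le.1 ((hR₁ x hx).trans hRa)
  have b₂ : ∀ x ∈ K₂, -R ≤ x ∧ x ≤ R := fun x hx => abs_le.1 ((hR₂ x hx).trans hRb)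
  set K : Set ℝ := K₁ ∪ ((fun x => x + 8 * R) '' K₂ ∪ (fun x => x + 24 * R) '' K₁) with hK
  have memK : ∀ z : ℝ, z ∈ K ↔ z ∈ K₁ ∨ z - 8 * R ∈ K₂ ∨ z - 24 * R ∈ K₁ := by
    intro z
    constructor
    · rintro (h | ⟨x, hx, rfl⟩ | ⟨x, hx, rfl⟩)
      · exact Or.inl h
      · right; left; simpa using hx
      · right; right; simpa using hx
    · rintro (h | h | h)
      · exact Or.inl h
      · exact Or.inr (Or.inl ⟨_, h, by simp⟩)
      · exact Or.inr (Or.inr ⟨_, h, by simp⟩)
  refine ⟨K, ?_, n₁.mono Set.subset_union_left, ?_⟩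
  · refine h₁.union ((h₂.image ?_).union (h₁.image ?_)) <;> fun_prop
  ext α
  rw [Set.mem_inter_iff, mem_iff, mem_iff, mem_iff]
  constructor
  · rintro ⟨h0, h⟩
    obtain ⟨x₁, hx₁⟩ := n₁
    obtain ⟨x₂, hx₂⟩ := n₂
    have c₁ := h x₁ ((memK _).2 (Or.inl hx₁))
    have c₂ := h (x₂ + 8 * R) ((memK _).2 (Or.inr (Or.inl (by simpa using hx₂))))
    have c₃ := h (x₁ + 24 * R) ((memK _).2 (Or.inr (Or.inr (by simpa using hx₁))))
    simp only [memK] at c₁ c₂ c₃
    have d₁ := b₁ x₁ hx₁
    have d₂ := b₂ x₂ hx₂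
    have hα : α ≤ 2 * R := by
      by_contra hcon
      push Not at hcon
      have e₁ : (6 * R ≤ α ∧ α ≤ 10 * R) ∨ (22 * R ≤ α ∧ α ≤ 26 * R) := by
        rcases c₁ with (c | c | c) | (c | c | c)
        · have := b₁ _ c; linarith
        · have := b₂ _ c; left; constructor <;> linarith
        · have := b₁ _ c; right; constructor <;> linarith
        · have := b₁ _ c; linarith
        · have := b₂ _ c; linarith
        · have := b₁ _ c; linarith
      have e₂ : (6 * R ≤ α ∧ α ≤ 10 * R) ∨ (14 * R ≤ α ∧ α ≤ 18 * R) := by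
        rcases c₂ with (c | c | c) | (c | c | c)
        · have := b₁ _ c; linarith
        · have := b₂ _ c; linarith
        · have := b₁ _ c; right; constructor <;> linarith
        · have := b₁ _ c; left; constructor <;> linarith
        · have := b₂ _ c; linarith
        · have := b₁ _ c; linarith
      have e₃ : (14 * R ≤ α ∧ α ≤ 18 * R) ∨ (22 * R ≤ α ∧ α ≤ 26 * R) := by
        rcases c₃ with (c | c | c) | (c | c | c)
        · have := b₁ _ c; linarith
        · have := b₂ _ c; linarith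
        · have := b₁ _ c; linarith
        · have := b₁ _ c; right; constructor <;> linarith
        · have := b₂ _ c; left; constructor <;> linarith
        · have := b₁ _ c; linarith
      rcases e₁ with e₁ | e₁ <;> rcases e₂ with e₂ | e₂ <;> rcases e₃ with e₃ | e₃ <;> linarith
    refine ⟨⟨h0, fun x hx => ?_⟩, ⟨h0, fun x hx => ?_⟩⟩
    · have dx := b₁ x hx
      have c := h x ((memK _).2 (Or.inl hx))
      simp only [memK] at c
      rcases c with (c | c | c) | (c | c | c)
      · exact Or.inl c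
      · have := b₂ _ c; exfalso; linarith
      · have := b₁ _ c; exfalso; linarith
      · exact Or.inr c
      · have := b₂ _ c; exfalso; linarith
      · have := b₁ _ c; exfalso; linarith
    · have dx := b₂ x hx
      have c := h (x + 8 * R) ((memK _).2 (Or.inr (Or.inl (by simpa using hx))))
      simp only [memK] at c
      rcases c with (c | c | c) | (c | c | c)
      · have := b₁ _ c; exfalso; linarith
      · left; convert c using 1; ring
      · have := b₁ _ c; exfalso; linarith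
      · have := b₁ _ c; exfalso; linarith
      · right; convert c using 1; ring
      · have := b₁ _ c; exfalso; linarith
  · rintro ⟨⟨h0, h⟩, ⟨-, h'⟩⟩
    refine ⟨h0, fun z hz => ?_⟩
    rw [memK] at hz
    simp only [memK]
    rcases hz with hz | hz | hz
    · rcases h _ hz with c | c
      · exact Or.inl (Or.inl c)
      · exact Or.inr (Or.inl c)
    · rcases h' _ hz with c | c
      · left; right; left; convert c using 1; ring
      · right; right; left; convert c using 1; ring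
    · rcases h _ hz with c | c
      · left; right; right; convert c using 1; ring
      · right; right; right; convert c using 1; ring

/-- Intervals `[0,M]` are centers of distances. -/
lemma interval (M : ℝ) (hM : 0 ≤ M) :
    centerOfDistances (Set.Icc 0 (2 * M)) = Set.Icc 0 M := by
  ext α
  rw [mem_iff]
  constructor
  · rintro ⟨h0, h⟩
    refine ⟨h0, ?_⟩
    rcases h M ⟨hM, by linarith⟩ with c | c
    · have := c.2; linarith
    · have := c.1; linarith
  · rintro ⟨h0, h⟩
    refine ⟨h0, fun x hx => ?_⟩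
    rcases le_total x M with hx' | hx'
    · left; exact ⟨by linarith [hx.1], by linarith⟩
    · right; exact ⟨by linarith, by linarith [hx.2]⟩

/-- Inside `[0,M]`, exactly the distances of the gap `(u,v)` are missing. -/
lemma gap (u v M : ℝ) (hu : 0 ≤ u) (huv : u < v) (hvM : v ≤ M) (α : ℝ) (h0 : 0 ≤ α) (hM : α ≤ M) :
    α ∈ centerOfDistances (Set.Icc (-(2 * M + v)) (-v) ∪ Set.Icc (-u) u ∪
      Set.Icc v (2 * M + v)) ↔ ¬ (u < α ∧ α < v) := by
  rw [mem_iff]
  constructor
  · rintro ⟨-, h⟩ ⟨h1, h2⟩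
    rcases h 0 (Or.inl (Or.inr ⟨by linarith, hu⟩)) with ((c | c) | c) | ((c | c) | c)
    · linarith [c.1, c.2]
    · linarith [c.1, c.2]
    · linarith [c.1, c.2]
    · linarith [c.1, c.2]
    · linarith [c.1, c.2]
    · linarith [c.1, c.2]
  · intro h
    refine ⟨h0, ?_⟩
    rcases le_or_gt α u with hα | hα
    · rintro x ((hx | hx) | hx)
      · rcases le_total x (-(M + v)) with c | c
        · left; left; left; exact ⟨by linarith [hx.1], by linarith⟩
        · right; left; left; exact ⟨by linarith, by linarith [hx.2]⟩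
      · rcases le_total x 0 with c | c
        · left; left; right; exact ⟨by linarith [hx.1], by linarith⟩
        · right; left; right; exact ⟨by linarith, by linarith [hx.2]⟩
      · rcases le_total x (M + v) with c | c
        · left; right; exact ⟨by linarith [hx.1], by linarith⟩
        · right; right; exact ⟨by linarith, by linarith [hx.2]⟩
    · have hαv : v ≤ α := by
        by_contra hcon
        exact h ⟨hα, not_le.1 hcon⟩
      rintro x ((hx | hx) | hx)
      · rcases le_total x (-(M + v)) with c | c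
        · left; left; left; exact ⟨by linarith [hx.1], by linarith⟩
        · right; left; left; exact ⟨by linarith, by linarith [hx.2]⟩
      · rcases le_total x 0 with c | c
        · right; left; left; exact ⟨by linarith [hx.1], by linarith⟩
        · left; right; exact ⟨by linarith, by linarith [hx.2]⟩
      · rcases le_total x (M + v) with c | c
        · left; right; exact ⟨by linarith [hx.1], by linarith⟩
        · right; right; exact ⟨by linarith, by linarith [hx.2]⟩

/-- `[0,M]` minus finitely many gaps is a center of distances. -/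
lemma gaps (M : ℝ) (hM : 0 ≤ M) (E : Finset (ℝ × ℝ))
    (hE : ∀ e ∈ E, 0 ≤ e.1 ∧ e.1 < e.2 ∧ e.2 ≤ M) :
    ∃ K : Set ℝ, IsCompact K ∧ K.Nonempty ∧
      centerOfDistances K = {α | 0 ≤ α ∧ α ≤ M ∧ ∀ e ∈ E, ¬ (e.1 < α ∧ α < e.2)} := by
  classical
  induction E using Finset.induction_on with
  | empty =>
    refine ⟨Set.Icc 0 (2 * M), isCompact_Icc, ⟨0, le_rfl, by linarith⟩, ?_⟩
    rw [interval M hM]
    ext α
    simp
  | insert e E he ih =>
    obtain ⟨K, hK, hKn, hKC⟩ := ih (fun e' he' => hE e' (Finset.mem_insert_of_mem he'))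
    obtain ⟨h1, h2, h3⟩ := hE e (Finset.mem_insert_self _ _)
    obtain ⟨K', hK', hKn', hKC'⟩ := inter K (Set.Icc (-(2 * M + e.2)) (-e.2) ∪ Set.Icc (-e.1) e.1 ∪
      Set.Icc e.2 (2 * M + e.2)) hK ((isCompact_Icc.union isCompact_Icc).union isCompact_Icc) hKn
      ⟨0, Or.inl (Or.inr ⟨by linarith, h1⟩)⟩
    refine ⟨K', hK', hKn', ?_⟩
    rw [hKC', hKC]
    ext α
    constructor
    · rintro ⟨⟨a0, a1, a2⟩, b⟩
      refine ⟨a0, a1, fun e' he' => ?_⟩
      rcases Finset.mem_insert.1 he' with h | h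
      · rw [h]
        exact (gap _ _ M h1 h2 h3 α a0 a1).1 b
      · exact a2 e' h
    · rintro ⟨a0, a1, a2⟩
      exact ⟨⟨a0, a1, fun e' he' => a2 e' (Finset.mem_insert_of_mem he')⟩,
        (gap _ _ M h1 h2 h3 α a0 a1).2 (a2 e (Finset.mem_insert_self _ _))⟩

/-- Every finite union of compact intervals in `[0,∞)` that contains `0` is the center of distances
of a nonempty compact set. -/
lemma realise (F : Finset (ℝ × ℝ)) (h0 : (0 : ℝ) ∈ ⋃ p ∈ F, Set.Icc p.1 p.2)
    (hpos : (⋃ p ∈ F, Set.Icc p.1 p.2) ⊆ Set.Ici (0 : ℝ)) :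
    ∃ K : Set ℝ, IsCompact K ∧ K.Nonempty ∧
      centerOfDistances K = ⋃ p ∈ F, Set.Icc p.1 p.2 := by
  classical
  set C : Set ℝ := ⋃ p ∈ F, Set.Icc p.1 p.2 with hC
  have memC : ∀ x : ℝ, x ∈ C ↔ ∃ p ∈ F, p.1 ≤ x ∧ x ≤ p.2 := by
    intro x
    simp only [hC, Set.mem_iUnion, Set.mem_Icc, exists_prop]
  have hCc : IsCompact C := F.finite_toSet.isCompact_biUnion (fun p _ => isCompact_Icc)
  obtain ⟨M, hMC, hMub⟩ := hCc.exists_isGreatest ⟨0, h0⟩
  have hM0 : 0 ≤ M := hpos hMC
  set E : Finset (ℝ × ℝ) := ((F ×ˢ F).image (fun q => (q.1.2, q.2.1))).filter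
    (fun e => 0 ≤ e.1 ∧ e.1 < e.2 ∧ e.2 ≤ M ∧ ∀ y ∈ C, ¬ (e.1 < y ∧ y < e.2)) with hE
  obtain ⟨K, hK, hKn, hKC⟩ := gaps M hM0 E (fun e he => by
    have := (Finset.mem_filter.1 he).2
    exact ⟨this.1, this.2.1, this.2.2.1⟩)
  refine ⟨K, hK, hKn, ?_⟩
  rw [hKC]
  ext α
  constructor
  · rintro ⟨a0, a1, a2⟩
    by_contra hαC
    -- the last interval ending before `α`
    have hL : (F.filter (fun p => p.1 ≤ p.2 ∧ p.2 < α)).Nonempty := by
      obtain ⟨p, hp, hp1, hp2⟩ := (memC 0).1 h0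
      refine ⟨p, Finset.mem_filter.2 ⟨hp, hp1.trans hp2, ?_⟩⟩
      by_contra hcon
      exact hαC ((memC α).2 ⟨p, hp, hp1.trans a0, not_lt.1 hcon⟩)
    have hR : (F.filter (fun p => p.1 ≤ p.2 ∧ α < p.1)).Nonempty := by
      obtain ⟨p, hp, hp1, hp2⟩ := (memC M).1 hMC
      refine ⟨p, Finset.mem_filter.2 ⟨hp, hp1.trans hp2, ?_⟩⟩
      by_contra hcon
      exact hαC ((memC α).2 ⟨p, hp, not_lt.1 hcon, a1.trans hp2⟩)
    obtain ⟨p, hp, hpmax⟩ := Finset.exists_max_image _ (fun p => p.2) hL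
    obtain ⟨q, hq, hqmin⟩ := Finset.exists_min_image _ (fun p => p.1) hR
    obtain ⟨hpF, hp1, hp2⟩ := Finset.mem_filter.1 hp
    obtain ⟨hqF, hq1, hq2⟩ := Finset.mem_filter.1 hq
    have hpC : p.2 ∈ C := (memC _).2 ⟨p, hpF, hp1, le_rfl⟩
    have hqC : q.1 ∈ C := (memC _).2 ⟨q, hqF, le_rfl, hq1⟩
    refine a2 (p.2, q.1) ?_ ⟨hp2, hq2⟩
    rw [hE, Finset.mem_filter]
    refine ⟨Finset.mem_image.2 ⟨(p, q), Finset.mem_product.2 ⟨hpF, hqF⟩, rfl⟩, hpos hpC,
      hp2.trans hq2, hMub hqC, ?_⟩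
    rintro y hy ⟨hy1, hy2⟩
    simp only at hy1 hy2
    obtain ⟨r, hr, hr1, hr2⟩ := (memC y).1 hy
    rcases le_total y α with h | h
    · have hrα : r.2 < α := by
        by_contra hcon
        exact hαC ((memC α).2 ⟨r, hr, hr1.trans h, not_lt.1 hcon⟩)
      have := hpmax r (Finset.mem_filter.2 ⟨hr, hr1.trans hr2, hrα⟩)
      linarith
    · have hrα : α < r.1 := by
        by_contra hcon
        exact hαC ((memC α).2 ⟨r, hr, not_lt.1 hcon, h.trans hr2⟩)
      have := hqmin r (Finset.mem_filter.2 ⟨hr, hr1.trans hr2, hrα⟩)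
      linarith
  · intro hα
    exact ⟨hpos hα, hMub hα, fun e he => (Finset.mem_filter.1 he).2.2.2.2 α hα⟩

end Pool.Agent.Helper47.COD
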