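import Mathlib
import Pool.Agent.Helper47.COD.Basic

set_option autoImplicit false

namespace Pool.Agent.Helper47.COD

/-- Local convexity of the complement: if every small distance `α ∈ (0,u]` is realised from every
point of the closed set `K`, then the complement of `K` is convex at scale `2u`. -/
lemma compl_convex (K : Set ℝ) (hK : IsCompact K) (u : ℝ) (hu : 0 < u)
    (hC : ∀ α : ℝ, 0 < α → α ≤ u → ∀ x ∈ K, x + α ∈ K ∨ x - α ∈ K)
    (h h' : ℝ) (hh : h ∉ K) (hh' : h' ∉ K) (hd : h' - h ≤ 2 * u)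
    (z : ℝ) (hz1 : h ≤ z) (hz2 : z ≤ h') : z ∉ K := by
  intro hzK
  have hcomp : IsCompact (K ∩ Set.Icc h h') := hK.inter_right isClosed_Icc
  obtain ⟨a, ⟨haK, ha1, ha2⟩, hleast⟩ := hcomp.exists_isLeast ⟨z, hzK, hz1, hz2⟩
  have hha : h < a := lt_of_le_of_ne ha1 (fun e => hh (e ▸ haK))
  have hah' : a < h' := lt_of_le_of_ne ha2 (fun e => hh' (e ▸ haK))
  have hleft : ∀ s : ℝ, 0 < s → s ≤ a - h → a - s ∉ K := by
    intro s hs hs' hmem
    have := hleast ⟨hmem, by linarith, by linarith⟩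
    linarith
  set δ : ℝ := min (a - h) u with hδ
  have hδpos : 0 < δ := lt_min (by linarith) hu
  have hδ1 : δ ≤ a - h := min_le_left _ _
  have hδ2 : δ ≤ u := min_le_right _ _
  have hright : ∀ s : ℝ, 0 ≤ s → s ≤ δ → a + s ∈ K := by
    intro s hs hs'
    rcases hs.eq_or_lt with h0 | h0
    · simpa [← h0] using haK
    · rcases hC s h0 (hs'.trans hδ2) a haK with h1 | h1
      · exact h1
      · exact absurd h1 (hleft s h0 (hs'.trans hδ1))
  set T : Set ℝ := {t | a ≤ t ∧ t ∉ K} with hT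
  have hTne : T.Nonempty := ⟨h', hah'.le, hh'⟩
  have hTbdd : BddBelow T := ⟨a, fun t ht => ht.1⟩
  have hTlow : ∀ t ∈ T, a + δ ≤ t := by
    intro t ht
    by_contra hcon
    push Not at hcon
    have := hright (t - a) (by linarith [ht.1]) (by linarith)
    exact ht.2 (by simpa using this)
  set b := sInf T with hb
  have hb1 : a + δ ≤ b := le_csInf hTne hTlow
  have hb2 : b ≤ h' := csInf_le hTbdd ⟨hah'.le, hh'⟩
  have hin : ∀ t, a ≤ t → t < b → t ∈ K := by
    intro t h1 h2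
    by_contra hcon
    have := csInf_le hTbdd (show t ∈ T from ⟨h1, hcon⟩)
    linarith
  obtain ⟨t, htT, htb⟩ := exists_lt_of_csInf_lt hTne (show sInf T < b + δ / 2 by rw [← hb]; linarith)
  have hbt : b ≤ t := csInf_le hTbdd htT
  have : ∃ t' ∈ T, t' < b + δ / 2 ∧ t' ≤ h' := by
    rcases le_total t h' with h1 | h1
    · exact ⟨t, htT, htb, h1⟩
    · exact ⟨h', ⟨hah'.le, hh'⟩, by linarith, le_rfl⟩
  obtain ⟨t', ht'T, ht'b, ht'h⟩ := this
  have hbt' : b ≤ t' := csInf_le hTbdd ht'T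
  have hmid : (t' + (a - δ / 2)) / 2 ∈ K := hin _ (by linarith) (by linarith)
  rcases hC ((t' - (a - δ / 2)) / 2) (by linarith) (by linarith) _ hmid with h1 | h1
  · have e : (t' + (a - δ / 2)) / 2 + (t' - (a - δ / 2)) / 2 = t' := by ring
    rw [e] at h1
    exact ht'T.2 h1
  · have e : (t' + (a - δ / 2)) / 2 - (t' - (a - δ / 2)) / 2 = a - δ / 2 := by ring
    rw [e] at h1
    exact hleft (δ / 2) (by linarith) (by linarith) h1

/-- Between two bad pairs `(x,β)`, `(x',β')` with an admissible distance `γ` between `β` and `β'`,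
there is a point outside `K` between `x` and `x'`. -/
lemma hole_between (K : Set ℝ) (hK : IsCompact K) (u : ℝ) (hu : 0 < u)
    (hC : ∀ α : ℝ, 0 < α → α ≤ u → ∀ x ∈ K, x + α ∈ K ∨ x - α ∈ K)
    (x x' β β' γ : ℝ) (h1 : x + β ∉ K) (h2 : x - β ∉ K) (h1' : x' + β' ∉ K) (h2' : x' - β' ∉ K)
    (hx : x ≤ x') (hclose : x' - x + |β' - β| ≤ 2 * u)
    (hγ : γ ∈ Set.uIcc β β') (hβ : β ≠ β')
    (hγC : ∀ y ∈ K, y + γ ∈ K ∨ y - γ ∈ K) : ∃ z, x ≤ z ∧ z ≤ x' ∧ z ∉ K := by
  have hne : β' - β ≠ 0 := sub_ne_zero.mpr hβ.symm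
  set t : ℝ := (γ - β) / (β' - β) with ht
  have ht01 : 0 ≤ t ∧ t ≤ 1 := by
    rcases lt_or_gt_of_ne hβ with hlt | hlt
    · rw [Set.uIcc_of_le hlt.le] at hγ
      refine ⟨div_nonneg (by linarith [hγ.1]) (by linarith), ?_⟩
      rw [ht, div_le_one (by linarith)]
      linarith [hγ.2]
    · rw [Set.uIcc_of_ge hlt.le] at hγ
      refine ⟨div_nonneg_of_nonpos (by linarith [hγ.2]) (by linarith), ?_⟩
      rw [ht, div_le_one_of_neg (by linarith)]
      linarith [hγ.1]
  obtain ⟨ht0, ht1⟩ := ht01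
  have hγt : γ = β + t * (β' - β) := by
    rw [ht]; field_simp; ring
  set z : ℝ := x + t * (x' - x) with hz
  have hxz : x ≤ z := by
    have := mul_nonneg ht0 (sub_nonneg.mpr hx); linarith
  have hzx : z ≤ x' := by
    have := mul_nonneg (sub_nonneg.mpr ht1) (sub_nonneg.mpr hx); nlinarith
  refine ⟨z, hxz, hzx, ?_⟩
  have key : ∀ p q : ℝ, p ∉ K → q ∉ K → |q - p| ≤ 2 * u → p + t * (q - p) ∉ K := by
    intro p q hp hq hpq
    rcases le_total p q with hle | hle
    · refine compl_convex K hK u hu hC p q hp hq ?_ _ ?_ ?_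
      · exact (le_abs_self _).trans hpq
      · have := mul_nonneg ht0 (sub_nonneg.mpr hle); linarith
      · have := mul_nonneg (sub_nonneg.mpr ht1) (sub_nonneg.mpr hle); nlinarith
    · refine compl_convex K hK u hu hC q p hq hp ?_ _ ?_ ?_
      · rw [abs_sub_comm] at hpq; exact (le_abs_self _).trans hpq
      · have := mul_nonneg (sub_nonneg.mpr ht1) (sub_nonneg.mpr hle); nlinarith
      · have := mul_nonneg ht0 (sub_nonneg.mpr hle); nlinarith
  have hp : z + γ ∉ K := by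
    have := key (x + β) (x' + β') h1 h1' (by
      have e : x' + β' - (x + β) = (x' - x) + (β' - β) := by ring
      rw [e]
      refine (abs_add_le _ _).trans ?_
      rwa [abs_of_nonneg (sub_nonneg.mpr hx)])
    have e : z + γ = (x + β) + t * (x' + β' - (x + β)) := by rw [hz, hγt]; ring
    rwa [e]
  have hm : z - γ ∉ K := by
    have := key (x - β) (x' - β') h2 h2' (by
      have e : x' - β' - (x - β) = (x' - x) + (-(β' - β)) := by ring
      rw [e]
      refine (abs_add_le _ _).trans ?_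
      rwa [abs_of_nonneg (sub_nonneg.mpr hx), abs_neg])
    have e : z - γ = (x - β) + t * (x' - β' - (x - β)) := by rw [hz, hγt]; ring
    rwa [e]
  intro hzK
  rcases hγC z hzK with h | h
  · exact hp h
  · exact hm h

/-- There is no infinite sequence of missing distances `β n` which are pairwise separated by
distances of the center. -/
lemma no_seq (K : Set ℝ) (hK : IsCompact K) (u : ℝ) (hu : 0 < u)
    (hsub : Set.Icc 0 u ⊆ centerOfDistances K) (B : ℝ) (β : ℕ → ℝ)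
    (hβ0 : ∀ n, β n ∈ Set.Icc 0 B) (hβ : ∀ n, β n ∉ centerOfDistances K)
    (hsep : ∀ i j, i ≠ j → ∃ γ ∈ centerOfDistances K, γ ∈ Set.uIcc (β i) (β j)) : False := by
  have hmem : ∀ α ∈ centerOfDistances K, ∀ x ∈ K, x + α ∈ K ∨ x - α ∈ K :=
    fun α hα => ((mem_iff K α).1 hα).2
  have hC1 : ∀ α : ℝ, 0 < α → α ≤ u → ∀ x ∈ K, x + α ∈ K ∨ x - α ∈ K :=
    fun α h0 h1 => hmem α (hsub ⟨h0.le, h1⟩)
  have hbad : ∀ n : ℕ, ∃ x ∈ K, x + β n ∉ K ∧ x - β n ∉ K := by
    intro n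
    by_contra hcon
    push Not at hcon
    apply hβ n
    rw [mem_iff]
    refine ⟨(hβ0 n).1, fun x hx => ?_⟩
    by_cases hxp : x + β n ∈ K
    · exact Or.inl hxp
    · exact Or.inr (hcon x hx hxp)
  choose x hxK hxp hxm using hbad
  have hcomp : IsCompact (K ×ˢ Set.Icc 0 B) := hK.prod isCompact_Icc
  obtain ⟨l, -, φ, hφ, hlim⟩ := hcomp.tendsto_subseq
    (x := fun n => (x n, β n)) (fun n => ⟨hxK n, hβ0 n⟩)
  have hev : ∀ᶠ n in Filter.atTop, dist (((fun n => (x n, β n)) ∘ φ) n) l < u / 4 :=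
    hlim (Metric.ball_mem_nhds l (by positivity))
  obtain ⟨N, hN⟩ := Filter.eventually_atTop.mp hev
  have hβne : ∀ i j : ℕ, i ≠ j → β i ≠ β j := by
    intro i j hij e
    obtain ⟨γ, hγC, hγ⟩ := hsep i j hij
    rw [e, Set.uIcc_self, Set.mem_singleton_iff] at hγ
    exact hβ j (hγ ▸ hγC)
  have hole : ∀ i j : ℕ, i ≠ j → |x i - x j| ≤ u → |β i - β j| ≤ u → x i ≤ x j →
      ∃ z, x i ≤ z ∧ z ≤ x j ∧ z ∉ K := by
    intro i j hij hxij hβij hle
    obtain ⟨γ, hγC, hγ⟩ := hsep i j hij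
    refine hole_between K hK u hu hC1 (x i) (x j) (β i) (β j) γ (hxp i) (hxm i) (hxp j)
      (hxm j) hle ?_ hγ (hβne i j hij) (hmem γ hγC)
    have h1 : x j - x i ≤ u := by
      rw [abs_sub_comm] at hxij; exact (le_abs_self _).trans hxij
    rw [abs_sub_comm] at hβij
    linarith
  have three : ∀ i j k : ℕ, i ≠ j → j ≠ k → |x i - x j| ≤ u → |x j - x k| ≤ u →
      |x i - x k| ≤ u → |β i - β j| ≤ u → |β j - β k| ≤ u → x i ≤ x j → x j ≤ x k → False := by
    intro i j k hij hjk h1 h2 h3 g1 g2 h4 h5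
    obtain ⟨z, hz1, hz2, hz⟩ := hole i j hij h1 g1 h4
    obtain ⟨w, hw1, hw2, hw⟩ := hole j k hjk h2 g2 h5
    refine compl_convex K hK u hu hC1 z w hz hw ?_ (x j) hz2 hw1 (hxK j)
    have h6 : x k - x i ≤ u := by
      rw [abs_sub_comm] at h3; exact (le_abs_self _).trans h3
    linarith
  have hclose : ∀ p q : ℕ, N ≤ p → N ≤ q →
      |x (φ p) - x (φ q)| ≤ u ∧ |β (φ p) - β (φ q)| ≤ u := by
    intro p q hp hq
    have h1 := hN p hp
    have h2 := hN q hq
    simp only [Function.comp_apply, Prod.dist_eq, max_lt_iff] at h1 h2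
    have h3 := dist_triangle_right (x (φ p)) (x (φ q)) l.1
    have h4 := dist_triangle_right (β (φ p)) (β (φ q)) l.2
    rw [Real.dist_eq] at h3 h4
    constructor <;> linarith [h1.1, h1.2, h2.1, h2.2]
  have n01 : φ N ≠ φ (N + 1) := fun e => by have := hφ.injective e; omega
  have n12 : φ (N + 1) ≠ φ (N + 2) := fun e => by have := hφ.injective e; omega
  have n02 : φ N ≠ φ (N + 2) := fun e => by have := hφ.injective e; omega
  obtain ⟨c01, d01⟩ := hclose N (N + 1) le_rfl (by omega)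
  obtain ⟨c10, d10⟩ := hclose (N + 1) N (by omega) le_rfl
  obtain ⟨c12, d12⟩ := hclose (N + 1) (N + 2) (by omega) (by omega)
  obtain ⟨c21, d21⟩ := hclose (N + 2) (N + 1) (by omega) (by omega)
  obtain ⟨c02, d02⟩ := hclose N (N + 2) le_rfl (by omega)
  obtain ⟨c20, d20⟩ := hclose (N + 2) N (by omega) le_rfl
  rcases le_total (x (φ N)) (x (φ (N + 1))) with h1 | h1 <;>
  rcases le_total (x (φ (N + 1))) (x (φ (N + 2))) with h2 | h2 <;>
  rcases le_total (x (φ N)) (x (φ (N + 2))) with h3 | h3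
  · exact three _ _ _ n01 n12 c01 c12 c02 d01 d12 h1 h2
  · exact three _ _ _ n01 n12 c01 c12 c02 d01 d12 h1 h2
  · exact three _ _ _ n02 n12.symm c02 c21 c01 d02 d21 h3 h2
  · exact three _ _ _ n02.symm n01 c20 c01 c21 d20 d01 h3 h1
  · exact three _ _ _ n01.symm n02 c10 c02 c12 d10 d02 h1 h3
  · exact three _ _ _ n12 n02.symm c12 c20 c10 d12 d20 h2 h3
  · exact three _ _ _ n12.symm n01.symm c21 c10 c20 d21 d10 h2 h1
  · exact three _ _ _ n12.symm n01.symm c21 c10 c20 d21 d10 h2 h1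

/-- Removing an open order-connected set from a finite union of compact intervals leaves a finite
union of compact intervals. -/
lemma sdiff_fin (C U : Set ℝ) (hU : IsOpen U) (hUc : U.OrdConnected)
    (hC : ∃ F : Finset (ℝ × ℝ), C = ⋃ p ∈ F, Set.Icc p.1 p.2) :
    ∃ F : Finset (ℝ × ℝ), C \ U = ⋃ p ∈ F, Set.Icc p.1 p.2 := by
  classical
  obtain ⟨F, rfl⟩ := hC
  -- a single interval
  have single : ∀ p : ℝ × ℝ, ∃ q r : ℝ × ℝ,
      Set.Icc p.1 p.2 \ U = Set.Icc q.1 q.2 ∪ Set.Icc r.1 r.2 := by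
    intro p
    rcases (Set.Icc p.1 p.2 ∩ U).eq_empty_or_nonempty with hne | ⟨m, hm, hmU⟩
    · refine ⟨p, p, ?_⟩
      rw [Set.union_self]
      exact sdiff_eq_left.2 (Set.disjoint_iff_inter_eq_empty.mpr hne)
    · -- left part
      have hL : ∃ q : ℝ × ℝ, (Set.Icc p.1 m) \ U = Set.Icc q.1 q.2 := by
        have hc : IsCompact (Set.Icc p.1 m \ U) := isCompact_Icc.diff hU
        rcases (Set.Icc p.1 m \ U).eq_empty_or_nonempty with h | h
        · exact ⟨(1, 0), by rw [h]; symm; exact Set.Icc_eq_empty (by norm_num)⟩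
        · obtain ⟨g, ⟨hg1, hg2⟩, hg3⟩ := hc.exists_isGreatest h
          refine ⟨(p.1, g), ?_⟩
          ext y
          constructor
          · intro hy
            exact ⟨hy.1.1, hg3 hy⟩
          · intro hy
            refine ⟨⟨hy.1, hy.2.trans hg1.2⟩, fun hyU => hg2 ?_⟩
            exact hUc.out hyU hmU ⟨hy.2, hg1.2⟩
      have hR : ∃ q : ℝ × ℝ, (Set.Icc m p.2) \ U = Set.Icc q.1 q.2 := by
        have hc : IsCompact (Set.Icc m p.2 \ U) := isCompact_Icc.diff hU
        rcases (Set.Icc m p.2 \ U).eq_empty_or_nonempty with h | h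
        · exact ⟨(1, 0), by rw [h]; symm; exact Set.Icc_eq_empty (by norm_num)⟩
        · obtain ⟨g, ⟨hg1, hg2⟩, hg3⟩ := hc.exists_isLeast h
          refine ⟨(g, p.2), ?_⟩
          ext y
          constructor
          · intro hy
            exact ⟨hg3 hy, hy.1.2⟩
          · intro hy
            refine ⟨⟨hg1.1.trans hy.1, hy.2⟩, fun hyU => hg2 ?_⟩
            exact hUc.out hmU hyU ⟨hg1.1, hy.1⟩
      obtain ⟨q, hq⟩ := hL
      obtain ⟨r, hr⟩ := hR
      refine ⟨q, r, ?_⟩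
      rw [← hq, ← hr, ← Set.union_sdiff_distrib, Set.Icc_union_Icc_eq_Icc hm.1 hm.2]
  choose q r hqr using single
  refine ⟨F.image q ∪ F.image r, ?_⟩
  ext y
  simp only [Set.mem_sdiff, Set.mem_iUnion, exists_prop, Finset.mem_union, Finset.mem_image]
  constructor
  · rintro ⟨⟨p, hp, hy⟩, hyU⟩
    have : y ∈ Set.Icc p.1 p.2 \ U := ⟨hy, hyU⟩
    rw [hqr p] at this
    rcases this with h | h
    · exact ⟨q p, Or.inl ⟨p, hp, rfl⟩, h⟩
    · exact ⟨r p, Or.inr ⟨p, hp, rfl⟩, h⟩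
  · rintro ⟨s, ⟨p, hp, rfl⟩ | ⟨p, hp, rfl⟩, hy⟩
    · have : y ∈ Set.Icc p.1 p.2 \ U := by rw [hqr p]; exact Or.inl hy
      exact ⟨⟨p, hp, this.1⟩, this.2⟩
    · have : y ∈ Set.Icc p.1 p.2 \ U := by rw [hqr p]; exact Or.inr hy
      exact ⟨⟨p, hp, this.1⟩, this.2⟩

/-- Rigidity: a compact center of distances of a compact set which contains an initial interval is a
finite union of compact intervals. -/
lemma rigid (K : Set ℝ) (hK : IsCompact K) (u : ℝ) (hu : 0 < u)
    (hsub : Set.Icc 0 u ⊆ centerOfDistances K) (hCc : IsCompact (centerOfDistances K)) :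
    ∃ F : Finset (ℝ × ℝ), centerOfDistances K = ⋃ p ∈ F, Set.Icc p.1 p.2 := by
  classical
  set C := centerOfDistances K with hC
  obtain ⟨B, hB⟩ := hCc.bddAbove
  have hCB : C ⊆ Set.Icc 0 B := fun α hα => ⟨((mem_iff K α).1 hα).1, hB hα⟩
  set G : Set (Set ℝ) := (fun x => Set.ordConnectedComponent Cᶜ x) '' (Set.Icc 0 B \ C) with hG
  have hGfin : G.Finite := by
    by_contra hinf
    have hinf' : G.Infinite := hinf
    set f := hinf'.natEmbedding with hf
    have hch : ∀ n, ∃ b, b ∈ Set.Icc 0 B \ C ∧ Set.ordConnectedComponent Cᶜ b = (f n : Set ℝ) :=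
      fun n => (f n).2
    choose β hβ1 hβ2 using hch
    refine no_seq K hK u hu hsub B β (fun n => (hβ1 n).1) (fun n => (hβ1 n).2) ?_
    intro i j hij
    by_contra hcon
    push Not at hcon
    have hsub' : Set.uIcc (β i) (β j) ⊆ Cᶜ := fun γ hγ hγC => hcon γ hγC hγ
    have h1 : β j ∈ Set.ordConnectedComponent Cᶜ (β i) := hsub'
    have h2 := Set.ordConnectedComponent_eq h1
    rw [hβ2 i, hβ2 j] at h2
    exact hij (f.injective (Subtype.ext h2))
  have hCeq : C = Set.Icc 0 B \ ⋃ U ∈ G, U := by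
    ext y
    constructor
    · intro hy
      refine ⟨hCB hy, fun hyU => ?_⟩
      simp only [Set.mem_iUnion, exists_prop] at hyU
      obtain ⟨U, ⟨x, hx, rfl⟩, hyU⟩ := hyU
      exact Set.ordConnectedComponent_subset hyU hy
    · rintro ⟨hy1, hy2⟩
      by_contra hyC
      apply hy2
      simp only [Set.mem_iUnion, exists_prop]
      exact ⟨_, ⟨y, ⟨hy1, hyC⟩, rfl⟩, Set.self_mem_ordConnectedComponent.2 hyC⟩
  have hopen : ∀ U ∈ G, IsOpen U ∧ U.OrdConnected := by
    rintro U ⟨x, hx, rfl⟩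
    refine ⟨?_, inferInstance⟩
    rw [isOpen_iff_mem_nhds]
    intro y hy
    have hyC : y ∈ Cᶜ := Set.ordConnectedComponent_subset hy
    have : Cᶜ ∈ nhds y := hCc.isClosed.isOpen_compl.mem_nhds hyC
    have h2 := Set.ordConnectedComponent_mem_nhds.2 this
    have h3 := Set.ordConnectedComponent_eq hy
    simp only
    rw [h3]
    exact h2
  -- finite induction
  have key : ∀ G' : Set (Set ℝ), G'.Finite → (∀ U ∈ G', IsOpen U ∧ U.OrdConnected) →
      ∃ F : Finset (ℝ × ℝ), Set.Icc 0 B \ (⋃ U ∈ G', U) = ⋃ p ∈ F, Set.Icc p.1 p.2 := by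
    intro G' hG'
    induction G', hG' using Set.Finite.induction_on with
    | empty =>
      intro _
      exact ⟨{(0, B)}, by simp⟩
    | insert hU hfin ih =>
      intro h
      rename_i U G''
      obtain ⟨hUo, hUc⟩ := h U (Set.mem_insert _ _)
      have h1 := sdiff_fin _ U hUo hUc (ih (fun V hV => h V (Set.mem_insert_of_mem _ hV)))
      obtain ⟨F, hF⟩ := h1
      refine ⟨F, ?_⟩
      rw [← hF, Set.biUnion_insert, Set.sdiff_sdiff, Set.union_comm]
  obtain ⟨F, hF⟩ := key G hGfin hopen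
  exact ⟨F, hCeq.trans hF⟩

end Pool.Agent.Helper47.COD
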